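import Pool.Agent.W353.TP.Emb

/-! Degree bounds for composita and normal closures. -/

set_option autoImplicit false

namespace Pool.Agent.W353.TP

open NumberField IntermediateField

section
variable {K : Type} [Field K] [NumberField K]

theorem finrank_mono' {E E' : IntermediateField K (Om K)} [FiniteDimensional K E'] (h : E ≤ E') :
    Module.finrank K E ≤ Module.finrank K E' :=
  LinearMap.finrank_le_finrank_of_injective (f := (IntermediateField.inclusion h).toLinearMap)
    (IntermediateField.inclusion_injective h)

theorem sqrt_step (E : IntermediateField K (Om K)) (x : Om K) (hx : x ^ 2 ∈ E) :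
    Module.finrank K (E ⊔ adjoin K {x} : IntermediateField K (Om K)) ≤
      2 * Module.finrank K E := by
  have h1 : E ⊔ adjoin K {x} = (adjoin E {x}).restrictScalars K :=
    (restrictScalars_adjoin_eq_sup K E {x}).symm
  rw [h1]
  have h2 : Module.finrank K ((adjoin E {x}).restrictScalars K) =
      Module.finrank K (adjoin E {x}) := rfl
  rw [h2, ← Module.finrank_mul_finrank K E (adjoin E {x}), mul_comm]
  refine Nat.mul_le_mul_right _ ?_
  have hint : IsIntegral E x := Algebra.IsIntegral.isIntegral x
  rw [adjoin.finrank hint]
  have h3 : minpoly E x ∣ (Polynomial.X ^ 2 - Polynomial.C (⟨x ^ 2, hx⟩ : E)) := by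
    apply minpoly.dvd
    simp
  have h4 := Polynomial.natDegree_le_of_dvd h3 (Polynomial.X_pow_sub_C_ne_zero (by norm_num) _)
  rwa [Polynomial.natDegree_X_pow_sub_C] at h4

theorem sqrt_adj {ι : Type} [DecidableEq ι] (E : IntermediateField K (Om K)) (t : ι → Om K)
    (ht : ∀ i, (t i) ^ 2 ∈ E) (s : Finset ι) :
    Module.finrank K (E ⊔ adjoin K (t '' s) : IntermediateField K (Om K)) ≤
      2 ^ s.card * Module.finrank K E := by
  induction s using Finset.induction_on with
  | empty =>
    rw [Finset.coe_empty, Set.image_empty, adjoin_empty, sup_bot_eq]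
    simp
  | insert a s ha ih =>
    rw [Finset.coe_insert, Set.image_insert_eq, Set.insert_eq, adjoin_union, sup_comm (adjoin K _),
      ← sup_assoc, Finset.card_insert_of_notMem ha, pow_succ]
    refine (sqrt_step _ (t a) (le_sup_left (a := E) (ht a))).trans ?_
    calc 2 * Module.finrank K (E ⊔ adjoin K (t '' s) : IntermediateField K (Om K))
        ≤ 2 * (2 ^ s.card * Module.finrank K E) := Nat.mul_le_mul_left _ ih
      _ = 2 ^ s.card * 2 * Module.finrank K E := by ring

theorem nc_bound (W : IntermediateField K (Om K)) [FiniteDimensional K W] :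
    Module.finrank K (IntermediateField.normalClosure K W (Om K)) ≤
      (Module.finrank K W).factorial := by
  classical
  set N := IntermediateField.normalClosure K W (Om K) with hN
  have hNn : Normal K N := inferInstance
  have hNf : FiniteDimensional K N := inferInstance
  have hsep : Algebra.IsSeparable K N := inferInstance
  have hG : IsGalois K N := IsGalois.mk
  rw [← IsGalois.card_aut_eq_finrank K N]
  let lift : (N ≃ₐ[K] N) → (Om K ≃ₐ[K] Om K) := fun σ => σ.liftNormal (Om K)
  have hlift : ∀ σ (x : N), lift σ x = σ x := fun σ x => σ.liftNormal_commutes (Om K) x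
  let Φ : (N ≃ₐ[K] N) → Equiv.Perm (W →ₐ[K] Om K) := fun σ =>
    { toFun := fun τ => ((lift σ : Om K ≃ₐ[K] Om K) : Om K →ₐ[K] Om K).comp τ
      invFun := fun τ => ((lift σ).symm : Om K →ₐ[K] Om K).comp τ
      left_inv := fun τ => by
        apply AlgHom.ext
        intro x
        change (lift σ).symm (lift σ (τ x)) = τ x
        rw [AlgEquiv.symm_apply_apply]
      right_inv := fun τ => by
        apply AlgHom.ext
        intro x
        change lift σ ((lift σ).symm (τ x)) = τ x
        rw [AlgEquiv.apply_symm_apply] }
  have hinj : Function.Injective Φ := by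
    intro σ σ' h
    have h1 : ∀ (τ : W →ₐ[K] Om K) (x : W), lift σ (τ x) = lift σ' (τ x) := by
      intro τ x
      have := congrArg (fun e : Equiv.Perm (W →ₐ[K] Om K) => (e τ) x) h
      exact this
    set g : Om K ≃ₐ[K] Om K := (lift σ').symm * lift σ with hg
    have h2 : N ≤ IntermediateField.fixedField (Subgroup.zpowers g) := by
      rw [hN, normalClosure_def]
      refine iSup_le fun τ => ?_
      rintro y ⟨x, rfl⟩
      have h3 : g (τ x) = τ x := by
        change (lift σ').symm (lift σ (τ x)) = τ x
        rw [h1, AlgEquiv.symm_apply_apply]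
      rw [IntermediateField.mem_fixedField_iff]
      intro k hk
      obtain ⟨m, rfl⟩ := Subgroup.mem_zpowers_iff.1 hk
      have h4 : g ∈ MulAction.stabilizer (Om K ≃ₐ[K] Om K) (τ x) := h3
      exact (MulAction.stabilizer (Om K ≃ₐ[K] Om K) (τ x)).zpow_mem h4 m
    apply AlgEquiv.ext
    intro x
    have h5 := (IntermediateField.mem_fixedField_iff _ _).1 (h2 x.2) g
      (Subgroup.mem_zpowers g)
    have h6 : lift σ x = lift σ' x := by
      have h7 : (lift σ').symm (lift σ x) = x := h5
      rw [← h7, AlgEquiv.apply_symm_apply]
      rw [h7]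
    rw [hlift, hlift] at h6
    exact Subtype.ext h6
  have h8 := Nat.card_le_card_of_injective Φ hinj
  have h9 : Nat.card (Equiv.Perm (W →ₐ[K] Om K)) = (Module.finrank K W).factorial := by
    rw [Nat.card_eq_fintype_card, Fintype.card_perm, AlgHom.card]
  rw [h9] at h8
  exact h8

theorem finrank_iSup_le {ι : Type} [DecidableEq ι] (N : ι → IntermediateField K (Om K)) (c : ℕ)
    (T : Finset ι) (h : ∀ i ∈ T, Module.finrank K (N i) ≤ c) :
    Module.finrank K (⨆ i ∈ T, N i : IntermediateField K (Om K)) ≤ c ^ T.card := by
  induction T using Finset.induction_on with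
  | empty =>
    have : (⨆ i ∈ (∅ : Finset ι), N i : IntermediateField K (Om K)) = ⊥ := by simp
    rw [this]
    simp
  | insert a s ha ih =>
    rw [Finset.iSup_insert, Finset.card_insert_of_notMem ha, pow_succ, mul_comm]
    refine (finrank_sup_le (N a) (⨆ i ∈ s, N i)).trans ?_
    exact Nat.mul_le_mul (h a (Finset.mem_insert_self a s))
      (ih fun i hi => h i (Finset.mem_insert_of_mem hi))

theorem normal_biSup {ι : Type} [DecidableEq ι] (N : ι → IntermediateField K (Om K))
    (h : ∀ i, Normal K (N i)) (T : Finset ι) :
    Normal K (⨆ i ∈ T, N i : IntermediateField K (Om K)) := by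
  induction T using Finset.induction_on with
  | empty =>
    have : (⨆ i ∈ (∅ : Finset ι), N i : IntermediateField K (Om K)) = ⊥ := by simp
    rw [this]
    infer_instance
  | insert a s ha ih =>
    rw [Finset.iSup_insert]
    have := h a
    exact IntermediateField.normal_sup (E := N a) (E' := ⨆ i ∈ s, N i)

/-- a finite normal extension containing finitely many finite extensions -/
theorem exists_normal {ι : Type} [DecidableEq ι] (W : ι → IntermediateField K (Om K))
    (hW : ∀ i, FiniteDimensional K (W i)) (T : Finset ι) :
    ∃ M : IntermediateField K (Om K), FiniteDimensional K M ∧ Normal K M ∧ (∀ i ∈ T, W i ≤ M) ∧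
      ∀ c : ℕ, (∀ i ∈ T, Module.finrank K (W i) ≤ c) →
        Module.finrank K M ≤ c.factorial ^ T.card := by
  have hNf : ∀ i, FiniteDimensional K (IntermediateField.normalClosure K (W i) (Om K)) := by
    intro i
    have := hW i
    infer_instance
  have hNn : ∀ i, Normal K (IntermediateField.normalClosure K (W i) (Om K)) := fun i =>
    inferInstance
  refine ⟨⨆ i ∈ T, IntermediateField.normalClosure K (W i) (Om K),
    IntermediateField.finiteDimensional_iSup_of_finset, normal_biSup _ hNn T, ?_, ?_⟩
  · intro i hi
    exact (IntermediateField.le_normalClosure (W i)).trans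
      (le_iSup₂ (f := fun i (_ : i ∈ T) => IntermediateField.normalClosure K (W i) (Om K)) i hi)
  · intro c hc
    refine finrank_iSup_le _ _ T fun i hi => ?_
    have := hW i
    exact (nc_bound (W i)).trans (Nat.factorial_le (hc i hi))

end

end Pool.Agent.W353.TP
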