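import Pool.Agent.W353.TP.Emb

/-! Intertwining numbers in terms of embeddings. -/

set_option autoImplicit false

namespace Pool.Agent.W353.TP

open Complex Filter Topology ComplexConjugate NumberField IsDedekindDomain Pool.Agent.H341R2
  Asymptotics
open scoped TensorProduct

section
variable {K : Type} [Field K] [NumberField K]

theorem exists_rho {G : Type} [Field G] [NumberField G] [Algebra K G] (j σ : G →ₐ[K] Om K) :
    ∃ ρ : Om K ≃ₐ[K] Om K, ∀ x, ρ (j x) = σ x := by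
  let _ : Algebra G (Om K) := j.toRingHom.toAlgebra
  have hst : IsScalarTower K G (Om K) := IsScalarTower.of_algebraMap_eq fun x => (j.commutes x).symm
  let g0 : Om K →ₐ[K] Om K := σ.liftNormal (Om K)
  have hg0 : ∀ y : G, g0 (j y) = σ y := fun y => σ.liftNormal_commutes (Om K) y
  have hbij : Function.Bijective g0 := Algebra.IsAlgebraic.algHom_bijective g0
  exact ⟨AlgEquiv.ofBijective g0 hbij, hg0⟩

theorem normal_mem (M : IntermediateField K (Om K)) [Normal K M] (ρ : Om K ≃ₐ[K] Om K)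
    {x : Om K} (hx : x ∈ M) : ρ x ∈ M := by
  have h := IntermediateField.normal_iff_forall_map_le'.1 (inferInstance : Normal K M) ρ
  exact h ⟨x, hx, rfl⟩

variable {F : Type} [Field F] [NumberField F] [Algebra K F] {G : Type} [Field G] [NumberField G]
  [Algebra K G]

/-- no intertwining when the twist is new -/
theorem inum_eq_zero (M : IntermediateField K (Om K)) [Normal K M] (i : F →ₐ[K] Om K)
    (j : G →ₐ[K] Om K) (hj : j.fieldRange ≤ M) {D : F} {D' : G} (hD' : D' ≠ 0) {s : Om K}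
    (hs : s ∈ M) (hsD : s ^ 2 = j D') (hD : ∀ y ∈ i.fieldRange ⊔ M, y ^ 2 ≠ i D) :
    inum K F G D D' = 0 := by
  unfold inum
  rw [Nat.card_eq_zero]
  left
  constructor
  rintro ⟨m, hm⟩
  obtain ⟨σ, rfl⟩ := mx_surjective i m
  obtain ⟨y, hy, hysq⟩ := (isSquare_iff i σ D D').1 hm
  obtain ⟨ρ, hρ⟩ := exists_rho j σ
  have h1 : σ.fieldRange ≤ M := by
    rintro x ⟨z, rfl⟩
    change σ z ∈ M
    rw [← hρ]
    exact normal_mem M ρ (hj ⟨z, rfl⟩)
  have h2 : ρ s ∈ M := normal_mem M ρ hs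
  have h3 : (ρ s) ^ 2 = σ D' := by rw [← map_pow, hsD, hρ]
  have h4 : σ D' ≠ 0 := by
    rw [Ne, map_eq_zero_iff σ σ.toRingHom.injective]
    exact hD'
  have h5 : ρ s ≠ 0 := by
    intro h
    rw [h, zero_pow two_ne_zero] at h3
    exact h4 h3.symm
  refine hD (y / ρ s) (div_mem ?_ ?_) ?_
  · exact sup_le_sup le_rfl h1 hy
  · exact (le_sup_right : M ≤ i.fieldRange ⊔ M) h2
  · rw [div_pow, hysq, h3]
    field_simp

/-- **Intertwining numbers with subfields of `M` only depend on `F ∩ M`.** -/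
theorem inum_inf {F₀ : Type} [Field F₀] [NumberField F₀] [Algebra K F₀]
    (M : IntermediateField K (Om K)) [FiniteDimensional K M] [Normal K M]
    (i : F →ₐ[K] Om K) (i₀ : F₀ →ₐ[K] Om K) (h0 : i₀.fieldRange = i.fieldRange ⊓ M)
    (j : G →ₐ[K] Om K) (hj : j.fieldRange ≤ M) {D : F} {D₀ : F₀} {D' : G} (hD : D ≠ 0)
    (hD₀ : D₀ ≠ 0) {s t u : Om K}
    (hs : s ∈ M) (hsD : s ^ 2 = j D') (ht : t ∈ M) (htD : t ^ 2 = i₀ D₀)
    (hu : u ∈ i.fieldRange) (huD : u ^ 2 = i D * i₀ D₀) :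
    inum K F G D D' = inum K F₀ G D₀ D' := by
  have hiD : i D ≠ 0 := by
    rw [Ne, map_eq_zero_iff i i.toRingHom.injective]
    exact hD
  have hiD₀ : i₀ D₀ ≠ 0 := by
    rw [Ne, map_eq_zero_iff i₀ i₀.toRingHom.injective]
    exact hD₀
  have hu0 : u ≠ 0 := by
    intro h
    rw [h, zero_pow two_ne_zero] at huD
    exact mul_ne_zero hiD hiD₀ huD.symm
  have hle : i₀.fieldRange ≤ i.fieldRange := h0 ▸ inf_le_left
  have hleM : i₀.fieldRange ≤ M := h0 ▸ inf_le_right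
  have hσM : ∀ σ : G →ₐ[K] Om K, σ.fieldRange ≤ M := by
    intro σ
    obtain ⟨ρ, hρ⟩ := exists_rho j σ
    rintro x ⟨z, rfl⟩
    change σ z ∈ M
    rw [← hρ]
    exact normal_mem M ρ (hj ⟨z, rfl⟩)
  have hcond : ∀ σ : G →ₐ[K] Om K, (∃ y ∈ i.fieldRange ⊔ σ.fieldRange, y ^ 2 = i D * σ D') ↔
      ∃ y ∈ i₀.fieldRange ⊔ σ.fieldRange, y ^ 2 = i₀ D₀ * σ D' := by
    intro σ
    constructor
    · rintro ⟨y, hy, hy2⟩
      have hz : y * i₀ D₀ / u ∈ i.fieldRange ⊔ σ.fieldRange := by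
        refine div_mem (mul_mem hy ?_) ?_
        · exact (le_sup_left : i.fieldRange ≤ i.fieldRange ⊔ σ.fieldRange) (hle ⟨D₀, rfl⟩)
        · exact (le_sup_left : i.fieldRange ≤ i.fieldRange ⊔ σ.fieldRange) hu
      have hz2 : (y * i₀ D₀ / u) ^ 2 = i₀ D₀ * σ D' := by
        rw [div_pow, mul_pow, hy2, huD]
        field_simp
      refine ⟨y * i₀ D₀ / u, ?_, hz2⟩
      obtain ⟨ρ, hρ⟩ := exists_rho j σ
      have h2 : ρ s ∈ M := normal_mem M ρ hs
      have h3 : (ρ s) ^ 2 = σ D' := by rw [← map_pow, hsD, hρ]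
      have hzM : y * i₀ D₀ / u ∈ M := by
        have h4 : (y * i₀ D₀ / u) ^ 2 = (t * ρ s) ^ 2 := by
          rw [hz2, mul_pow, htD, h3]
        rcases sq_eq_sq_iff_eq_or_eq_neg.1 h4 with h5 | h5
        · rw [h5]
          exact mul_mem ht h2
        · rw [h5]
          exact neg_mem (mul_mem ht h2)
      rw [h0]
      exact modular i.fieldRange M σ.fieldRange (hσM σ) hzM hz
    · rintro ⟨y, hy, hy2⟩
      refine ⟨y * (u / i₀ D₀), ?_, ?_⟩
      · refine mul_mem (sup_le_sup hle le_rfl hy) ?_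
        refine (le_sup_left : i.fieldRange ≤ i.fieldRange ⊔ σ.fieldRange) (div_mem hu ?_)
        exact hle ⟨D₀, rfl⟩
      · rw [mul_pow, hy2, div_pow, huD]
        field_simp
  unfold inum
  let S : Type := {σ : G →ₐ[K] Om K // ∃ y ∈ i.fieldRange ⊔ σ.fieldRange, y ^ 2 = i D * σ D'}
  let a : S → {m : MaximalSpectrum (F ⊗[K] G) //
      IsSquare (Ideal.Quotient.mk m.asIdeal (D ⊗ₜ D'))} :=
    fun σ => ⟨mx F G i σ.1, (isSquare_iff i σ.1 D D').2 σ.2⟩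
  let b : S → {m : MaximalSpectrum (F₀ ⊗[K] G) //
      IsSquare (Ideal.Quotient.mk m.asIdeal (D₀ ⊗ₜ D'))} :=
    fun σ => ⟨mx F₀ G i₀ σ.1, (isSquare_iff i₀ σ.1 D₀ D').2 ((hcond σ.1).1 σ.2)⟩
  refine card_eq_of_factor a b ?_ ?_ ?_
  · rintro ⟨m, hm⟩
    obtain ⟨σ, rfl⟩ := mx_surjective i m
    exact ⟨⟨σ, (isSquare_iff i σ D D').1 hm⟩, rfl⟩
  · rintro ⟨m, hm⟩
    obtain ⟨σ, rfl⟩ := mx_surjective i₀ m
    exact ⟨⟨σ, (hcond σ).2 ((isSquare_iff i₀ σ D₀ D').1 hm)⟩, rfl⟩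
  · rintro ⟨σ, hσ⟩ ⟨σ', hσ'⟩
    have e1 : a ⟨σ, hσ⟩ = a ⟨σ', hσ'⟩ ↔ mx F G i σ = mx F G i σ' := Subtype.ext_iff
    have e2 : b ⟨σ, hσ⟩ = b ⟨σ', hσ'⟩ ↔ mx F₀ G i₀ σ = mx F₀ G i₀ σ' := Subtype.ext_iff
    rw [e1, e2, mx_eq_iff, mx_eq_iff]
    constructor
    · rintro ⟨g, hg1, hg2⟩
      refine ⟨g, fun x => ?_, hg2⟩
      obtain ⟨x', hx'⟩ := hle ⟨x, rfl⟩
      change i x' = i₀ x at hx'
      rw [← hx', hg1]
    · rintro ⟨g0, hg1, hg2⟩
      obtain ⟨g, hg3, hg4⟩ := gal_ext i.fieldRange M g0 (fun x hx hxM => by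
        have : x ∈ i₀.fieldRange := by rw [h0]; exact ⟨hx, hxM⟩
        obtain ⟨x', rfl⟩ := this
        exact hg1 x')
      refine ⟨g, fun x => hg3 (i x) ⟨x, rfl⟩, fun y => ?_⟩
      rw [hg4 (σ y) (hσM σ ⟨y, rfl⟩), hg2]

theorem littleO_const {c : ℝ} (h : (fun ε => c * LL ε) =o[𝓝[>] 0] LL) : c = 0 := by
  by_contra hc
  have h1 : LL =o[𝓝[>] 0] LL := (isLittleO_const_mul_left_iff hc).1 h
  exact isLittleO_irrefl (LL_tendsto.eventually_ne_atTop 0).frequently h1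

/-- symmetry of the intertwining numbers -/
theorem inum_symm {r : ℕ} {d : Fin r → 𝓞 F} {e : Fin r → 𝓞 G} (hd : ∀ i, d i ≠ 0)
    (he : ∀ i, e i ≠ 0) (j : Fin r × Fin r) :
    inum K F G ((d j.1 * d j.2 : 𝓞 F) : F) ((e j.1 * e j.2 : 𝓞 G) : G) =
      inum K G F ((e j.1 * e j.2 : 𝓞 G) : G) ((d j.1 * d j.2 : 𝓞 F) : F) := by
  classical
  have h1 := gram_H (K := K) hd he 0 0 j
  have h2 := gram_H (K := K) he hd 0 0 j
  rw [if_pos rfl] at h1 h2
  have h3 : ∀ ε, ((sysH K).E ε fun x : HX K => (vv K d 0 j x * conj (vv K e 0 j x)).re) =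
      (sysH K).E ε fun x : HX K => (vv K e 0 j x * conj (vv K d 0 j x)).re := by
    intro ε
    refine congrArg ((sysH K).E ε) (funext fun x => ?_)
    rw [← Complex.conj_re, map_mul, Complex.conj_conj, mul_comm]
  have h4 := h2.sub h1
  have h5 : (fun ε => ((inum K F G ((d j.1 * d j.2 : 𝓞 F) : F) ((e j.1 * e j.2 : 𝓞 G) : G) : ℝ) -
      inum K G F ((e j.1 * e j.2 : 𝓞 G) : G) ((d j.1 * d j.2 : 𝓞 F) : F)) * LL ε)
      =o[𝓝[>] 0] LL := by
    refine h4.congr_left fun ε => ?_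
    rw [h3]
    ring
  have h6 := littleO_const h5
  have h7 := sub_eq_zero.1 h6
  exact_mod_cast h7

end

end Pool.Agent.W353.TP
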