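import Pool.Agent.W353.TP.MainIneq

/-! The inequality for the orders of the continuations. -/

set_option autoImplicit false

namespace Pool.Agent.W353.TP

open Complex Filter Topology ComplexConjugate NumberField IsDedekindDomain Pool.Agent.H341R2
  Asymptotics Polynomial
open Pool.Agent.H921R2.TatePole (nm two_le_nm R hc R_eq_hc R_le kerPrime hom_finite C0)
open Pool.Agent.H126T (pairs bb bb_pos tt ww norm_tt norm_ww Sv Gd aa L2 L2_log mean_aa
  order_limit)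
open scoped TensorProduct

section
variable {K : Type} [Field K] [NumberField K]

theorem order_ineq {r : ℕ} {f : Fin r → (𝓞 K)[X]} (hodd : ∀ i, Odd (f i).natDegree)
    (h3 : ∀ i, 3 ≤ (f i).natDegree) {κ : Type} (T : Finset κ) (F : κ → Type)
    [∀ k, Field (F k)] [∀ k, NumberField (F k)] [∀ k, Algebra K (F k)]
    (d : ∀ k, Fin r → 𝓞 (F k)) (τ : κ → ℝ) (hd0 : ∀ k ∈ T, ∀ i, d k i ≠ 0)
    (S : ∀ k, Finset (HeightOneSpectrum (𝓞 (F k))))
    (hS : ∀ k ∈ T, ∀ v, v ∉ S k → Gd (bc (F k) f) (d k) v)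
    (B : ∀ k, HeightOneSpectrum (𝓞 (F k)) → ℂ[X])
    (hB : ∀ k ∈ T, ∀ v ∈ S k, (B k v).eval (((nm v : ℕ) : ℂ) ^ (-((2 : ℂ) + τ k * I))) ≠ 0)
    (Λ : κ → ℂ → ℂ) (hΛ : ∀ k ∈ T, MeromorphicAt (Λ k) (2 + τ k * I) ∧
      ∀ᶠ s in 𝓝 ((2 : ℂ) + τ k * I), 2 < s.re →
        Λ k s = L2 (bc (F k) f) (d k) (S k) (B k) s) :
    ∃ m : κ → ℤ, (∀ k ∈ T, meromorphicOrderAt (Λ k) (2 + τ k * I) = m k) ∧
      ∀ c : κ → ℝ, (∑ k ∈ T, c k * (m k + if τ k = 0 then (r : ℝ) else 0)) ^ 2 ≤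
        (∑ j ∈ pairs r, bb f j) * (∑ k ∈ T, ∑ l ∈ T, c k * c l * Gm f F d τ k l) := by
  classical
  have hex : ∀ k, ∃ m : ℤ, k ∈ T → meromorphicOrderAt (Λ k) (2 + τ k * I) = m ∧
      Tendsto (fun ε : ℝ => Real.log ‖L2 (bc (F k) f) (d k) (S k) (B k) (2 + τ k * I + ε)‖ /
        Real.log (1 / ε)) (𝓝[>] 0) (𝓝 (-(m : ℝ))) := by
    intro k
    by_cases hk : k ∈ T
    · obtain ⟨hne, _⟩ := one_log hodd h3 (hS k hk) (B k) (τ k) (hB k hk)
      obtain ⟨m, h1, h2⟩ := order_limit (hΛ k hk).1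
        (fun ε : ℝ => L2 (bc (F k) f) (d k) (S k) (B k) (2 + τ k * I + ε)) hne (by
          filter_upwards [(path_tendsto' (2 + τ k * I)).eventually (hΛ k hk).2,
            self_mem_nhdsWithin] with ε h1 h2
          have hε : (0 : ℝ) < ε := h2
          exact h1 (by simp; linarith))
      exact ⟨m, fun _ => ⟨h1, h2⟩⟩
    · exact ⟨0, fun h => absurd h hk⟩
  choose m hm using hex
  refine ⟨m, fun k hk => (hm k hk).1, fun c => ?_⟩
  have hlim : Tendsto (fun ε : ℝ => (∑ k ∈ T, c k *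
      (Real.log ‖L2 (bc (F k) f) (d k) (S k) (B k) (2 + τ k * I + ε)‖ /
        Real.log (1 / ε) - if τ k = 0 then (r : ℝ) else 0)) ^ 2) (𝓝[>] 0)
      (𝓝 ((∑ k ∈ T, c k * (-(m k : ℝ) - if τ k = 0 then (r : ℝ) else 0)) ^ 2)) :=
    (tendsto_finsetSum T fun k hk => ((hm k hk).2.sub_const _).const_mul (c k)).pow 2
  have hle : ∀ η : ℝ, 0 < η →
      (∑ k ∈ T, c k * (-(m k : ℝ) - if τ k = 0 then (r : ℝ) else 0)) ^ 2 ≤
        (∑ j ∈ pairs r, bb f j) * (∑ k ∈ T, ∑ l ∈ T, c k * c l * Gm f F d τ k l) + η :=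
    fun η hη => le_of_tendsto hlim (main_ineq hodd h3 T F d τ hd0 S hS B hB c hη)
  have hle2 := le_of_forall_pos_le_add hle
  have e1 : (∑ k ∈ T, c k * (m k + if τ k = 0 then (r : ℝ) else 0)) ^ 2 =
      (∑ k ∈ T, c k * (-(m k : ℝ) - if τ k = 0 then (r : ℝ) else 0)) ^ 2 := by
    rw [← neg_sq, ← Finset.sum_neg_distrib]
    congr 1
    refine Finset.sum_congr rfl fun k _ => ?_
    ring
  rw [e1]
  exact hle2

/-- the bound for an orthogonal family -/
theorem orth_bound {κ : Type} (T : Finset κ) (x : κ → ℝ) (G : κ → κ → ℝ) (N n : ℝ)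
    (hN : 0 ≤ N) (hn : 0 ≤ n)
    (h : ∀ c : κ → ℝ, (∑ k ∈ T, c k * x k) ^ 2 ≤ N * ∑ k ∈ T, ∑ l ∈ T, c k * c l * G k l)
    (hdiag : ∀ k ∈ T, G k k ≤ n * N) (hoff : ∀ k ∈ T, ∀ l ∈ T, k ≠ l → G k l = 0) :
    ∑ k ∈ T, x k ^ 2 ≤ n * N ^ 2 := by
  classical
  have h1 := h x
  have h2 : ∑ k ∈ T, ∑ l ∈ T, x k * x l * G k l ≤ ∑ k ∈ T, x k ^ 2 * (n * N) := by
    refine Finset.sum_le_sum fun k hk => ?_
    rw [← Finset.add_sum_erase T _ hk, Finset.sum_eq_zero (s := T.erase k) (fun l hl => by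
      rw [Finset.mem_erase] at hl
      rw [hoff k hk l hl.2 (Ne.symm hl.1), mul_zero]), add_zero, ← sq]
    exact mul_le_mul_of_nonneg_left (hdiag k hk) (sq_nonneg _)
  have h3 : (∑ k ∈ T, x k ^ 2) ^ 2 ≤ n * N ^ 2 * ∑ k ∈ T, x k ^ 2 := by
    have e1 : ∑ k ∈ T, x k * x k = ∑ k ∈ T, x k ^ 2 :=
      Finset.sum_congr rfl fun k _ => (sq (x k)).symm
    rw [e1] at h1
    refine h1.trans ((mul_le_mul_of_nonneg_left h2 hN).trans (le_of_eq ?_))
    rw [← Finset.sum_mul]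
    ring
  set A := ∑ k ∈ T, x k ^ 2 with hA
  have hA0 : 0 ≤ A := Finset.sum_nonneg fun k _ => sq_nonneg _
  rcases hA0.eq_or_lt with h4 | h4
  · rw [← h4]
    positivity
  · rw [sq] at h3
    exact le_of_mul_le_mul_right h3 h4

theorem Gm_diag_le {r : ℕ} (f : Fin r → (𝓞 K)[X]) (h3 : ∀ i, 3 ≤ (f i).natDegree) {κ : Type}
    (F : κ → Type) [∀ k, Field (F k)] [∀ k, NumberField (F k)] [∀ k, Algebra K (F k)]
    (d : ∀ k, Fin r → 𝓞 (F k)) (τ : κ → ℝ) (k : κ) (n : ℕ)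
    (hn : ∀ j ∈ pairs r, inum K (F k) (F k) ((d k j.1 * d k j.2 : 𝓞 (F k)) : F k)
      ((d k j.1 * d k j.2 : 𝓞 (F k)) : F k) ≤ n) :
    Gm f F d τ k k ≤ n * ∑ j ∈ pairs r, bb f j := by
  unfold Gm
  rw [Finset.mul_sum]
  refine Finset.sum_le_sum fun j hj => ?_
  rw [if_pos rfl, mul_comm]
  exact mul_le_mul_of_nonneg_right (by exact_mod_cast hn j hj) (bb_pos h3 j).le

end

section
variable (K F F' : Type) [Field K] [NumberField K] [Field F] [NumberField F] [Algebra K F]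
  [Field F'] [NumberField F'] [Algebra K F']

theorem card_max_le : Fintype.card (MaximalSpectrum (F ⊗[K] F')) ≤ Module.finrank K F' := by
  have h1 : Module.finrank K (F ⊗[K] F') = Module.finrank K F * Module.finrank K F' :=
    Module.finrank_tensorProduct
  let e : (F ⊗[K] F') ≃ₗ[K] (∀ m : MaximalSpectrum (F ⊗[K] F'), Fac K F F' m) :=
    ((IsArtinianRing.equivPi (F ⊗[K] F')).restrictScalars K).toLinearEquiv
  have h2 : Module.finrank K (∀ m : MaximalSpectrum (F ⊗[K] F'), Fac K F F' m) =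
      ∑ m : MaximalSpectrum (F ⊗[K] F'), Module.finrank K (Fac K F F' m) :=
    Module.finrank_pi_fintype K
  have h3 : ∀ m : MaximalSpectrum (F ⊗[K] F'), Module.finrank K F ≤
      Module.finrank K (Fac K F F' m) := by
    intro m
    let g : F →ₐ[K] Fac K F F' m :=
      (Ideal.Quotient.mkₐ K m.asIdeal).comp Algebra.TensorProduct.includeLeft
    exact LinearMap.finrank_le_finrank_of_injective (f := g.toLinearMap) g.toRingHom.injective
  have h4 : Fintype.card (MaximalSpectrum (F ⊗[K] F')) * Module.finrank K F ≤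
      Module.finrank K F' * Module.finrank K F := by
    calc Fintype.card (MaximalSpectrum (F ⊗[K] F')) * Module.finrank K F
        = ∑ m : MaximalSpectrum (F ⊗[K] F'), Module.finrank K F := by
          rw [Finset.sum_const, Finset.card_univ, smul_eq_mul]
      _ ≤ ∑ m : MaximalSpectrum (F ⊗[K] F'), Module.finrank K (Fac K F F' m) :=
          Finset.sum_le_sum fun m _ => h3 m
      _ = Module.finrank K F' * Module.finrank K F := by
          rw [← h2, ← e.finrank_eq, h1, mul_comm]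
  exact Nat.le_of_mul_le_mul_right h4 Module.finrank_pos

theorem inum_le (D : F) (D' : F') : inum K F F' D D' ≤ Module.finrank K F' := by
  unfold inum
  refine le_trans ?_ (card_max_le K F F')
  rw [← Nat.card_eq_fintype_card]
  exact Nat.card_le_card_of_injective _ Subtype.val_injective

end

end Pool.Agent.W353.TP
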