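import Pool.Agent.W353.TP.RelEx

/-! Limits along ultrafilters and orders. -/

set_option autoImplicit false

namespace Pool.Agent.W353.TP

open Complex Filter Topology ComplexConjugate NumberField IsDedekindDomain Pool.Agent.H341R2
  Asymptotics Polynomial
open Pool.Agent.H921R2.TatePole (nm)
open Pool.Agent.H126T (pairs bb bb_pos Gd L2 order_limit)

section
variable {K : Type} [Field K] [NumberField K] {r : ℕ} {f : Fin r → (𝓞 K)[X]}

theorem dat_tendsto (hodd : ∀ i, Odd (f i).natDegree) (h3 : ∀ i, 3 ≤ (f i).natDegree)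
    (U : Ultrafilter ℝ) (hU : (U : Filter ℝ) ≤ 𝓝[>] 0) {τ : ℝ} (D : Dat f τ) :
    Tendsto D.X U (𝓝 (ul U D.X)) :=
  tendsto_ul (XX_isBigO hodd h3 D.adm) U hU

theorem dat_order (hodd : ∀ i, Odd (f i).natDegree) (h3 : ∀ i, 3 ≤ (f i).natDegree)
    (U : Ultrafilter ℝ) (hU : (U : Filter ℝ) ≤ 𝓝[>] 0) {τ : ℝ} (D : Dat f τ) (Λ : ℂ → ℂ)
    (h1 : MeromorphicAt Λ (2 + τ * I))
    (h2 : ∀ᶠ s in 𝓝 ((2 : ℂ) + τ * I), 2 < s.re → Λ s = L2 (bc D.F f) D.d D.S D.B s) {m : ℤ}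
    (hm : meromorphicOrderAt Λ (2 + τ * I) = m) : ul U D.X = -(m : ℝ) := by
  obtain ⟨hne, _⟩ := one_log hodd h3 D.adm.1 D.B τ D.adm.2
  obtain ⟨m', h3', h4⟩ := order_limit h1
    (fun ε : ℝ => L2 (bc D.F f) D.d D.S D.B (2 + τ * I + ε)) hne (by
      filter_upwards [(path_tendsto' (2 + τ * I)).eventually h2,
        self_mem_nhdsWithin] with ε h1 h2
      have hε : (0 : ℝ) < ε := h2
      exact h1 (by simp; linarith))
  rw [hm] at h3'
  have h5 : m = m' := by exact_mod_cast h3'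
  subst h5
  exact tendsto_nhds_unique (dat_tendsto hodd h3 U hU D) (h4.mono_left hU)

theorem freq_of_lim {U : Ultrafilter ℝ} (hU : (U : Filter ℝ) ≤ 𝓝[>] 0) {X : ℝ → ℝ} {x c δ : ℝ}
    (h : Tendsto X U (𝓝 x)) (hx : |x - c| < δ) : ∃ᶠ ε : ℝ in 𝓝[>] 0, |X ε - c| < δ := by
  have h1 : Tendsto (fun ε => |X ε - c|) U (𝓝 |x - c|) := (h.sub_const c).abs
  exact (h1.eventually_lt_const hx).frequently.filter_mono hU

theorem int_eq_of_lt {k : ℕ} (hk : 1 ≤ k) {a b : ℤ} (h : (k : ℝ) * |(a : ℝ) - b| < 1) :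
    a = b := by
  by_contra hne
  have h1 : a - b ≠ 0 := sub_ne_zero.2 hne
  have h2 := Int.one_le_abs h1
  have h3 : (1 : ℝ) ≤ |(a : ℝ) - b| := by exact_mod_cast h2
  have h4 : (1 : ℝ) ≤ k := by exact_mod_cast hk
  nlinarith

end

end Pool.Agent.W353.TP
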