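import Pool.Agent.H341R2.NF.Orth

/-! Sums over the homomorphisms from the ring of integers of a number field to prime fields. -/

set_option autoImplicit false

namespace Pool.Agent.W353.TP

open Complex Filter Topology ComplexConjugate NumberField IsDedekindDomain Pool.Agent.H341R2
open Pool.Agent.H921R2.TatePole (nm two_le_nm R hc R_eq_hc R_le kerPrime hom_finite C0)

section
variable (K : Type) [Field K] [NumberField K]

/-- homomorphisms from the ring of integers to the prime fields -/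
abbrev HX : Type := Σ p : Nat.Primes, (𝓞 K →+* ZMod (p : ℕ))

noncomputable instance instFintypeHom (p : Nat.Primes) : Fintype (𝓞 K →+* ZMod (p : ℕ)) :=
  @Fintype.ofFinite _ (hom_finite p)

variable {K}

theorem card_hom_eq (p : Nat.Primes) : Fintype.card (𝓞 K →+* ZMod (p : ℕ)) = R K p := by
  rw [R_eq_hc, hc, Nat.card_eq_fintype_card]

theorem card_hom_le (p : Nat.Primes) :
    Fintype.card (𝓞 K →+* ZMod (p : ℕ)) ≤ Module.finrank ℚ K := by
  rw [card_hom_eq]
  exact R_le p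

theorem summable_HX {r : ℝ} (hr : r < -1) : Summable fun x : HX K => ((x.1 : ℕ) : ℝ) ^ r := by
  refine (summable_sigma_of_nonneg (fun x => by positivity)).2
    ⟨fun p => (hasSum_fintype _).summable, ?_⟩
  refine Summable.of_norm_bounded ((summable_prime_rpow hr).mul_left (Module.finrank ℚ K : ℝ))
    fun p => ?_
  have e1 : ∑' u : 𝓞 K →+* ZMod (p : ℕ), (((⟨p, u⟩ : HX K).1 : ℕ) : ℝ) ^ r =
      Fintype.card (𝓞 K →+* ZMod (p : ℕ)) * ((p : ℕ) : ℝ) ^ r := by
    rw [tsum_fintype]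
    change ∑ u : 𝓞 K →+* ZMod (p : ℕ), ((p : ℕ) : ℝ) ^ r = _
    rw [Finset.sum_const, nsmul_eq_mul, Finset.card_univ]
  have e2 := card_hom_le (K := K) p
  have e3 : (0 : ℝ) ≤ ((p : ℕ) : ℝ) ^ r := by positivity
  refine (le_of_eq (congrArg norm e1)).trans ?_
  rw [Real.norm_eq_abs, abs_of_nonneg (by positivity)]
  exact mul_le_mul_of_nonneg_right (by exact_mod_cast e2) e3

theorem tsum_HX {r : ℝ} (hr : r < -1) {φ : HX K → ℝ} {B : ℝ} (hφ : ∀ x, |φ x| ≤ B) :
    ∑' x : HX K, φ x * ((x.1 : ℕ) : ℝ) ^ r =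
      ∑' p : Nat.Primes, (∑ u : 𝓞 K →+* ZMod (p : ℕ), φ ⟨p, u⟩) * (p : ℝ) ^ r := by
  have hs : Summable fun x : HX K => φ x * ((x.1 : ℕ) : ℝ) ^ r := by
    refine Summable.of_norm_bounded ((summable_HX (K := K) hr).mul_left B) fun x => ?_
    rw [Real.norm_eq_abs, abs_mul, abs_of_nonneg (by positivity : 0 ≤ ((x.1 : ℕ) : ℝ) ^ r)]
    exact mul_le_mul_of_nonneg_right (hφ x) (by positivity)
  rw [hs.tsum_sigma]
  refine tsum_congr fun p => ?_
  rw [tsum_fintype, Finset.sum_mul]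

theorem low_kerPrime (g : HeightOneSpectrum (𝓞 K) → ℝ) (p : Nat.Primes) :
    low g p = ∑ u : 𝓞 K →+* ZMod (p : ℕ), g (kerPrime p u).1.1 := low_eq g p

variable (K) in
/-- the system of homomorphisms to prime fields -/
noncomputable def sysH : NormSys where
  X := HX K
  N x := (x.1 : ℕ)
  two_le x := x.1.2.two_le
  summable r hr := summable_HX hr
  log_bdd := by
    obtain ⟨C, hC⟩ := (sysK K).lam_bounded
    refine ⟨C + 1 * Module.finrank ℚ K * C0, ?_⟩
    filter_upwards [hC, self_mem_nhdsWithin] with ε h1 h2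
    have hε : (0 : ℝ) < ε := h2
    have h3 := E_low (K := K) (g := fun _ => (1 : ℝ)) (C := 1) (fun _ => by simp) hε
    have h4 : ∑' x : HX K, ((x.1 : ℕ) : ℝ) ^ (-(1 + ε)) = E ε (low fun _ : HeightOneSpectrum (𝓞 K) =>
        (1 : ℝ)) := by
      have h5 := tsum_HX (K := K) (r := -(1 + ε)) (by linarith) (φ := fun _ => (1 : ℝ)) (B := 1)
        (fun _ => by simp)
      simp only [one_mul] at h5
      rw [h5, E]
      refine tsum_congr fun p => ?_
      rw [low_kerPrime]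
    have h6 : (sysK K).E ε (fun _ => (1 : ℝ)) = (sysK K).lam ε := by
      unfold NormSys.E NormSys.lam
      exact tsum_congr fun _ => one_mul _
    have h3' : |(sysK K).lam ε - E ε (low fun _ : HeightOneSpectrum (𝓞 K) => (1 : ℝ))| ≤
        1 * Module.finrank ℚ K * C0 := by
      rw [← h6]
      exact h3
    rw [h4]
    have h7 : E ε (low fun _ : HeightOneSpectrum (𝓞 K) => (1 : ℝ)) + Real.log ε =
        ((sysK K).lam ε + Real.log ε) - ((sysK K).lam ε -
          E ε (low fun _ : HeightOneSpectrum (𝓞 K) => (1 : ℝ))) := by ring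
    rw [h7]
    exact (abs_sub _ _).trans (add_le_add h1 h3')

theorem EH_eq {ε : ℝ} (hε : 0 < ε) {φ : HX K → ℝ} {B : ℝ} (hφ : ∀ x, |φ x| ≤ B) :
    (sysH K).E ε φ = E ε fun p => ∑ u : 𝓞 K →+* ZMod (p : ℕ), φ ⟨p, u⟩ :=
  tsum_HX (K := K) (by linarith) hφ

/-- from prime ideals to homomorphisms -/
theorem E_H {g : HeightOneSpectrum (𝓞 K) → ℝ} {C : ℝ} (hg : ∀ v, |g v| ≤ C) {ε : ℝ}
    (hε : 0 < ε) :
    |(sysK K).E ε g - (sysH K).E ε (fun x : HX K => g (kerPrime x.1 x.2).1.1)| ≤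
      C * Module.finrank ℚ K * C0 := by
  have h1 := E_low hg hε
  rw [EH_eq hε (fun x => hg _)]
  have h2 : (E ε fun p : Nat.Primes => ∑ u : 𝓞 K →+* ZMod (p : ℕ), g (kerPrime p u).1.1) =
      E ε (low g) := congrArg (E ε) (funext fun p => (low_kerPrime g p).symm)
  rw [h2]
  exact h1

theorem lamH_sub : ∃ C : ℝ, ∀ᶠ ε : ℝ in 𝓝[>] 0, |(sysH K).lam ε - lam ε| ≤ C := by
  obtain ⟨C1, h1⟩ := (sysH K).lam_bounded
  obtain ⟨C2, h2⟩ := lam_bounded
  refine ⟨C1 + C2, ?_⟩
  filter_upwards [h1, h2] with ε h3 h4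
  have : (sysH K).lam ε - lam ε = ((sysH K).lam ε + Real.log ε) - (lam ε + Real.log ε) := by ring
  rw [this]
  exact (abs_sub _ _).trans (by linarith)

end

section
variable {K F : Type} [Field K] [NumberField K] [Field F] [NumberField F] [Algebra K F]

/-- restriction of a homomorphism -/
noncomputable def res (K : Type) {F : Type} [Field K] [NumberField K] [Field F] [NumberField F]
    [Algebra K F] {p : ℕ} (ψ : 𝓞 F →+* ZMod p) : 𝓞 K →+* ZMod p :=
  ψ.comp (algebraMap (𝓞 K) (𝓞 F))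

open Classical in
/-- the sum over the extensions of a homomorphism -/
noncomputable def push (K : Type) {F : Type} [Field K] [NumberField K] [Field F] [NumberField F]
    [Algebra K F] {A : Type} [AddCommMonoid A] (h : HX F → A) (x : HX K) : A :=
  ∑ ψ ∈ Finset.univ.filter (fun ψ : 𝓞 F →+* ZMod (x.1 : ℕ) => res K ψ = x.2), h ⟨x.1, ψ⟩

theorem sum_push {A : Type} [AddCommMonoid A] (h : HX F → A) (p : Nat.Primes) :
    ∑ u : 𝓞 K →+* ZMod (p : ℕ), push K h ⟨p, u⟩ = ∑ ψ : 𝓞 F →+* ZMod (p : ℕ), h ⟨p, ψ⟩ := by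
  classical
  unfold push
  exact Finset.sum_fiberwise (Finset.univ : Finset (𝓞 F →+* ZMod (p : ℕ)))
    (fun ψ => res K ψ) (fun ψ => h ⟨p, ψ⟩)

theorem push_abs_le {h : HX F → ℝ} {B : ℝ} (hB : ∀ x, |h x| ≤ B) (x : HX K) :
    |push K h x| ≤ Module.finrank ℚ F * B := by
  classical
  unfold push
  refine (Finset.abs_sum_le_sum_abs _ _).trans ?_
  refine (Finset.sum_le_sum fun ψ _ => hB _).trans ?_
  rw [Finset.sum_const, nsmul_eq_mul]
  have hB0 : 0 ≤ B := (abs_nonneg _).trans (hB ((sysH F).nonempty.some))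
  refine mul_le_mul_of_nonneg_right ?_ hB0
  have h1 := Finset.card_filter_le (Finset.univ : Finset (𝓞 F →+* ZMod (x.1 : ℕ)))
    (fun ψ => res K ψ = x.2)
  rw [Finset.card_univ] at h1
  exact_mod_cast h1.trans (card_hom_le x.1)

/-- pushing sums forward to the base field -/
theorem EH_push {ε : ℝ} (hε : 0 < ε) {h : HX F → ℝ} {B : ℝ} (hB : ∀ x, |h x| ≤ B) :
    (sysH F).E ε h = (sysH K).E ε (push K h) := by
  rw [EH_eq hε hB, EH_eq hε (push_abs_le hB)]
  refine congrArg (E ε) (funext fun p => ?_)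
  exact (sum_push h p).symm

end

end Pool.Agent.W353.TP
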