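import Pool.Agent.W353.TP.Tensor

/-! Pairs of homomorphisms that agree on the base field. -/

set_option autoImplicit false

namespace Pool.Agent.W353.TP

open NumberField IsDedekindDomain
open Pool.Agent.H921R2.TatePole (comp' comp'_coe)
open scoped TensorProduct

section
variable (K F F' : Type) [Field K] [NumberField K] [Field F] [NumberField F] [Algebra K F]
  [Field F'] [NumberField F'] [Algebra K F']

instance isIntegral_tensor' :
    @Algebra.IsIntegral ℤ (𝓞 F ⊗[𝓞 K] 𝓞 F') _ _ (Ring.toIntAlgebra _) := by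
  have h := isIntegral_tensor K F F'
  convert h
  exact Subsingleton.elim _ _

noncomputable instance fintypeMax : Fintype (MaximalSpectrum (F ⊗[K] F')) := Fintype.ofFinite _

/-- the map to the product of the simple factors -/
noncomputable def jp : 𝓞 F ⊗[𝓞 K] 𝓞 F' →+* ∀ m : MaximalSpectrum (F ⊗[K] F'), Fac K F F' m :=
  ((IsArtinianRing.equivPi (F ⊗[K] F') : F ⊗[K] F' →+* _)).comp (jo K F F')

theorem jp_apply (a : 𝓞 F ⊗[𝓞 K] 𝓞 F') (m : MaximalSpectrum (F ⊗[K] F')) :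
    jp K F F' a m = Ideal.Quotient.mk m.asIdeal (jo K F F' a) := rfl

theorem jp_injective : Function.Injective (jp K F F') := by
  unfold jp
  rw [RingHom.coe_comp]
  exact (IsArtinianRing.equivPi (F ⊗[K] F')).injective.comp (jo_injective K F F')

theorem jp_lattice (e : ∀ m : MaximalSpectrum (F ⊗[K] F'), Fac K F F' m) :
    ∃ N : ℤ, N ≠ 0 ∧ ∃ a, jp K F F' a = (N : ∀ m, Fac K F F' m) * e := by
  obtain ⟨x, rfl⟩ := (IsArtinianRing.equivPi (F ⊗[K] F')).surjective e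
  obtain ⟨N, hN, a, ha⟩ := jo_lattice K F F' x
  refine ⟨N, hN, a, ?_⟩
  change (IsArtinianRing.equivPi (F ⊗[K] F')) (jo K F F' a) = _
  rw [ha, map_mul, map_intCast]

/-- the inclusion of the left factor -/
noncomputable def iL (m : MaximalSpectrum (F ⊗[K] F')) : 𝓞 F →+* 𝓞 (Fac K F F' m) :=
  (comp' (jp K F F') m).comp Algebra.TensorProduct.includeLeftRingHom

/-- the inclusion of the right factor -/
noncomputable def iR (m : MaximalSpectrum (F ⊗[K] F')) : 𝓞 F' →+* 𝓞 (Fac K F F' m) :=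
  (comp' (jp K F F') m).comp
    (Algebra.TensorProduct.includeRight : 𝓞 F' →ₐ[𝓞 K] 𝓞 F ⊗[𝓞 K] 𝓞 F').toRingHom

variable {K F F'}

theorem iL_iR_coe (m : MaximalSpectrum (F ⊗[K] F')) (x : 𝓞 F) (y : 𝓞 F') :
    ((iL K F F' m x * iR K F F' m y : 𝓞 (Fac K F F' m)) : Fac K F F' m) =
      Ideal.Quotient.mk m.asIdeal ((x : F) ⊗ₜ (y : F')) := by
  have h : iL K F F' m x * iR K F F' m y = comp' (jp K F F') m (x ⊗ₜ y) := by
    unfold iL iR
    rw [RingHom.comp_apply, RingHom.comp_apply, ← map_mul]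
    congr 1
    change (x ⊗ₜ[𝓞 K] (1 : 𝓞 F')) * ((1 : 𝓞 F) ⊗ₜ[𝓞 K] y) = _
    rw [Algebra.TensorProduct.tmul_mul_tmul, one_mul, mul_one]
  rw [h, comp'_coe, jp_apply, jo_tmul]

/-- the homomorphism of the tensor product attached to two homomorphisms agreeing on the base -/
theorem exists_lift {p : ℕ} (ψ : 𝓞 F →+* ZMod p) (ψ' : 𝓞 F' →+* ZMod p)
    (h : res K ψ = res K ψ') : ∃ f : 𝓞 F ⊗[𝓞 K] 𝓞 F' →+* ZMod p,
      f.comp Algebra.TensorProduct.includeLeftRingHom = ψ ∧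
      f.comp (Algebra.TensorProduct.includeRight : 𝓞 F' →ₐ[𝓞 K] 𝓞 F ⊗[𝓞 K] 𝓞 F').toRingHom =
        ψ' := by
  let _ : Algebra (𝓞 K) (ZMod p) := (res K ψ).toAlgebra
  let a : 𝓞 F →ₐ[𝓞 K] ZMod p := { ψ with commutes' := fun r => rfl }
  let b : 𝓞 F' →ₐ[𝓞 K] ZMod p := { ψ' with commutes' := fun r => (RingHom.congr_fun h r).symm }
  refine ⟨(Algebra.TensorProduct.lift a b (fun _ _ => Commute.all _ _)).toRingHom, ?_, ?_⟩
  · refine RingHom.ext fun x => ?_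
    change Algebra.TensorProduct.lift a b (fun _ _ => Commute.all _ _) (x ⊗ₜ 1) = ψ x
    rw [Algebra.TensorProduct.lift_tmul, map_one, mul_one]
    rfl
  · refine RingHom.ext fun x => ?_
    change Algebra.TensorProduct.lift a b (fun _ _ => Commute.all _ _) (1 ⊗ₜ x) = ψ' x
    rw [Algebra.TensorProduct.lift_tmul, map_one, one_mul]
    rfl

theorem hom_ext_tensor {p : ℕ} {f g : 𝓞 F ⊗[𝓞 K] 𝓞 F' →+* ZMod p}
    (h1 : f.comp Algebra.TensorProduct.includeLeftRingHom =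
      g.comp Algebra.TensorProduct.includeLeftRingHom)
    (h2 : f.comp (Algebra.TensorProduct.includeRight : 𝓞 F' →ₐ[𝓞 K] 𝓞 F ⊗[𝓞 K] 𝓞 F').toRingHom =
      g.comp (Algebra.TensorProduct.includeRight : 𝓞 F' →ₐ[𝓞 K] 𝓞 F ⊗[𝓞 K] 𝓞 F').toRingHom) :
    f = g := by
  refine RingHom.ext fun x => ?_
  induction x using TensorProduct.induction_on with
  | zero => rw [map_zero, map_zero]
  | tmul a b =>
    have e : a ⊗ₜ[𝓞 K] b = (a ⊗ₜ[𝓞 K] (1 : 𝓞 F')) * ((1 : 𝓞 F) ⊗ₜ[𝓞 K] b) := by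
      rw [Algebra.TensorProduct.tmul_mul_tmul, one_mul, mul_one]
    rw [e, map_mul, map_mul]
    have e1 := RingHom.congr_fun h1 a
    have e2 := RingHom.congr_fun h2 b
    change f (a ⊗ₜ 1) = g (a ⊗ₜ 1) at e1
    change f (1 ⊗ₜ b) = g (1 ⊗ₜ b) at e2
    rw [e1, e2]
  | add x y hx hy => rw [map_add, map_add, hx, hy]

theorem res_iL {p : ℕ} (f : 𝓞 F ⊗[𝓞 K] 𝓞 F' →+* ZMod p) :
    res K (f.comp Algebra.TensorProduct.includeLeftRingHom) =
      res K (f.comp (Algebra.TensorProduct.includeRight :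
        𝓞 F' →ₐ[𝓞 K] 𝓞 F ⊗[𝓞 K] 𝓞 F').toRingHom) := by
  refine RingHom.ext fun x => ?_
  change f ((algebraMap (𝓞 K) (𝓞 F) x) ⊗ₜ 1) = f (1 ⊗ₜ (algebraMap (𝓞 K) (𝓞 F') x))
  congr 1
  rw [Algebra.algebraMap_eq_smul_one, Algebra.algebraMap_eq_smul_one, TensorProduct.smul_tmul]

variable (K F F') in
/-- **Decomposition of pairs.** -/
theorem pairs_bijective : ∃ N : ℤ, N ≠ 0 ∧ ∀ p : Nat.Primes, ¬ ((p : ℕ) : ℤ) ∣ N →
    Function.Bijective (fun x : (Σ m : MaximalSpectrum (F ⊗[K] F'),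
      (𝓞 (Fac K F F' m) →+* ZMod (p : ℕ))) =>
      (⟨(x.2.comp (iL K F F' x.1), x.2.comp (iR K F F' x.1)), by
        unfold iL iR
        rw [← RingHom.comp_assoc, ← RingHom.comp_assoc]
        exact res_iL _⟩ : {q : (𝓞 F →+* ZMod (p : ℕ)) × (𝓞 F' →+* ZMod (p : ℕ)) //
          res K q.1 = res K q.2})) := by
  obtain ⟨N, hN, h⟩ := homs_bijective (fun m : MaximalSpectrum (F ⊗[K] F') => Fac K F F' m)
    (jp K F F') (jp_injective K F F') (jp_lattice K F F')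
  refine ⟨N, hN, fun p hp => ?_⟩
  obtain ⟨hi, hs⟩ := h p hp
  constructor
  · intro x y hxy
    apply hi
    have h1 := congrArg (fun q => q.1.1) hxy
    have h2 := congrArg (fun q => q.1.2) hxy
    simp only at h1 h2
    unfold iL at h1
    unfold iR at h2
    rw [← RingHom.comp_assoc, ← RingHom.comp_assoc] at h1 h2
    exact hom_ext_tensor h1 h2
  · rintro ⟨⟨ψ, ψ'⟩, hq⟩
    obtain ⟨f, hf1, hf2⟩ := exists_lift ψ ψ' hq
    obtain ⟨x, hx⟩ := hs f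
    refine ⟨x, ?_⟩
    apply Subtype.ext
    apply Prod.ext
    · change x.2.comp (iL K F F' x.1) = ψ
      unfold iL
      rw [← RingHom.comp_assoc, ← hf1]
      exact congrArg (fun g : 𝓞 F ⊗[𝓞 K] 𝓞 F' →+* ZMod (p : ℕ) =>
        g.comp Algebra.TensorProduct.includeLeftRingHom) hx
    · change x.2.comp (iR K F F' x.1) = ψ'
      unfold iR
      rw [← RingHom.comp_assoc, ← hf2]
      exact congrArg (fun g : 𝓞 F ⊗[𝓞 K] 𝓞 F' →+* ZMod (p : ℕ) =>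
        g.comp (Algebra.TensorProduct.includeRight :
          𝓞 F' →ₐ[𝓞 K] 𝓞 F ⊗[𝓞 K] 𝓞 F').toRingHom) hx

open Classical in
variable (K F F') in
/-- the sum over pairs that agree on the base -/
theorem pairs_sum : ∃ N : ℤ, N ≠ 0 ∧ ∀ p : Nat.Primes, ¬ ((p : ℕ) : ℤ) ∣ N →
    ∀ h : (𝓞 F →+* ZMod (p : ℕ)) → (𝓞 F' →+* ZMod (p : ℕ)) → ℝ,
      ∑ u : 𝓞 K →+* ZMod (p : ℕ), (∑ ψ ∈ Finset.univ.filter (fun ψ : 𝓞 F →+* ZMod (p : ℕ) =>
        res K ψ = u), ∑ ψ' ∈ Finset.univ.filter (fun ψ' : 𝓞 F' →+* ZMod (p : ℕ) =>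
        res K ψ' = u), h ψ ψ') =
      ∑ m : MaximalSpectrum (F ⊗[K] F'), ∑ Ψ : 𝓞 (Fac K F F' m) →+* ZMod (p : ℕ),
        h (Ψ.comp (iL K F F' m)) (Ψ.comp (iR K F F' m)) := by
  obtain ⟨N, hN, hb⟩ := pairs_bijective K F F'
  refine ⟨N, hN, fun p hp h => ?_⟩
  have h1 : ∑ u : 𝓞 K →+* ZMod (p : ℕ), (∑ ψ ∈ Finset.univ.filter
      (fun ψ : 𝓞 F →+* ZMod (p : ℕ) => res K ψ = u), ∑ ψ' ∈ Finset.univ.filter
      (fun ψ' : 𝓞 F' →+* ZMod (p : ℕ) => res K ψ' = u), h ψ ψ') =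
      ∑ ψ : 𝓞 F →+* ZMod (p : ℕ), ∑ ψ' : 𝓞 F' →+* ZMod (p : ℕ),
        if res K ψ = res K ψ' then h ψ ψ' else 0 := by
    have h2 : ∀ u : 𝓞 K →+* ZMod (p : ℕ), (∑ ψ ∈ Finset.univ.filter
      (fun ψ : 𝓞 F →+* ZMod (p : ℕ) => res K ψ = u), ∑ ψ' ∈ Finset.univ.filter
      (fun ψ' : 𝓞 F' →+* ZMod (p : ℕ) => res K ψ' = u), h ψ ψ') =
      ∑ ψ : 𝓞 F →+* ZMod (p : ℕ), if res K ψ = u then ∑ ψ' : 𝓞 F' →+* ZMod (p : ℕ),
        (if res K ψ' = u then h ψ ψ' else 0) else 0 := by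
      intro u
      rw [Finset.sum_filter]
      refine Finset.sum_congr rfl fun ψ _ => ?_
      rw [Finset.sum_filter]
    rw [Finset.sum_congr rfl fun u _ => h2 u, Finset.sum_comm]
    refine Finset.sum_congr rfl fun ψ _ => ?_
    rw [Finset.sum_ite_eq]
    rw [if_pos (Finset.mem_univ _)]
    refine Finset.sum_congr rfl fun ψ' _ => ?_
    by_cases h3 : res K ψ = res K ψ'
    · rw [if_pos h3, if_pos h3.symm]
    · rw [if_neg h3, if_neg (Ne.symm h3)]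
  rw [h1, ← Fintype.sum_prod_type' (fun (ψ : 𝓞 F →+* ZMod (p : ℕ))
    (ψ' : 𝓞 F' →+* ZMod (p : ℕ)) => if res K ψ = res K ψ' then h ψ ψ' else 0),
    ← Finset.sum_filter, Finset.sum_subtype (Finset.univ.filter
      fun q : (𝓞 F →+* ZMod (p : ℕ)) × (𝓞 F' →+* ZMod (p : ℕ)) => res K q.1 = res K q.2)
      (p := fun q => res K q.1 = res K q.2) (by simp) (fun q => h q.1 q.2)]
  rw [← Fintype.sum_sigma' (fun (m : MaximalSpectrum (F ⊗[K] F'))
    (Ψ : 𝓞 (Fac K F F' m) →+* ZMod (p : ℕ)) =>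
      h (Ψ.comp (iL K F F' m)) (Ψ.comp (iR K F F' m)))]
  exact (Fintype.sum_bijective _ (hb p hp) _ _ fun x => rfl).symm

end

end Pool.Agent.W353.TP
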