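import Pool.Agent.W353.TP.VD
import Pool.Agent.W353.TP.Deg

/-! One finite extension governs the pole orders over all extensions of bounded degree. -/

set_option autoImplicit false

namespace Pool.Agent.W353.TP

open Complex Filter Topology ComplexConjugate NumberField IsDedekindDomain Pool.Agent.H341R2
  Asymptotics Polynomial
open Pool.Agent.H921R2.TatePole (nm)
open Pool.Agent.H126T (pairs bb bb_pos Gd L2)

section
variable {K : Type} [Field K] [NumberField K] {r : ℕ} {f : Fin r → (𝓞 K)[X]}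

/-- the product of two of the twists, as an element of the algebraic closure -/
noncomputable def pr {F : IntermediateField K (Om K)} (d : Fin r → 𝓞 F) (j : Fin r × Fin r) :
    Om K := (((d j.1 * d j.2 : 𝓞 F) : F) : Om K)

theorem pr_mul {F : IntermediateField K (Om K)} (d : Fin r → 𝓞 F) (j : Fin r × Fin r) :
    pr d j = ((d j.1 : F) : Om K) * ((d j.2 : F) : Om K) := by
  unfold pr
  push_cast
  rfl

/-- the data of an Euler product over an intermediate field -/
structure Dat (f : Fin r → (𝓞 K)[X]) (τ : ℝ) where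
  F : IntermediateField K (Om K)
  nf : NumberField F
  d : Fin r → 𝓞 F
  hd : ∀ i, d i ≠ 0
  S : Finset (HeightOneSpectrum (𝓞 F))
  B : HeightOneSpectrum (𝓞 F) → ℂ[X]
  adm : Adm f F d S B τ

instance Dat.instNF {τ : ℝ} (D : Dat f τ) : NumberField D.F := D.nf

/-- the logarithmic size -/
noncomputable def Dat.X {τ : ℝ} (D : Dat f τ) (ε : ℝ) : ℝ := XX f D.F D.d D.S D.B τ ε

/-- the combination of two data with a coefficient -/
noncomputable def VD.two {τ : ℝ} (D D₀ : Dat f τ) (t : ℤ) : VD f where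
  F b := match b with
    | false => D.F
    | true => D₀.F
  nf b := match b with
    | false => D.nf
    | true => D₀.nf
  d b := match b with
    | false => D.d
    | true => D₀.d
  hd b := match b with
    | false => D.hd
    | true => D₀.hd
  s b := match b with
    | false => 1
    | true => t
  τ := τ
  S b := match b with
    | false => D.S
    | true => D₀.S
  B b := match b with
    | false => D.B
    | true => D₀.B
  adm b := match b with
    | false => D.adm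
    | true => D₀.adm

theorem GG_eq (A B : VD f) (b c : Bool) [Decidable (A.τ = B.τ)] :
    GG (A, b) (B, c) = ∑ j ∈ pairs r, bb f j * (if A.τ = B.τ then
      (inum K (A.F b) (B.F c) ((A.d b j.1 * A.d b j.2 : 𝓞 (A.F b)) : A.F b)
        ((B.d c j.1 * B.d c j.2 : 𝓞 (B.F c)) : B.F c) : ℝ) else 0) := by
  unfold GG Gm
  refine Finset.sum_congr rfl fun j _ => ?_
  congr 1
  by_cases h : A.τ = B.τ
  · rw [if_pos h, if_pos h]
  · rw [if_neg h, if_neg h]

theorem GG_symm (A B : VD f) (b c : Bool) :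
    GG (A, b) (B, c) = GG (B, c) (A, b) := by
  classical
  rw [GG_eq, GG_eq]
  refine Finset.sum_congr rfl fun j _ => ?_
  by_cases h : A.τ = B.τ
  · rw [if_pos h, if_pos h.symm, inum_symm (A.hd b) (B.hd c) j]
  · rw [if_neg h, if_neg (Ne.symm h)]

theorem ip_symm (A B : VD f) : ip A B = ip B A := by
  unfold ip
  rw [Finset.sum_comm]
  refine Finset.sum_congr rfl fun c _ => Finset.sum_congr rfl fun b _ => ?_
  rw [GG_symm]
  ring

/-- everything is defined over `M` -/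
def InM (M : IntermediateField K (Om K)) (A : VD f) : Prop :=
  ∀ b, A.F b ≤ M ∧ ∀ i, ∃ s ∈ M, s ^ 2 = ((A.d b i : A.F b) : Om K)

/-- the combinations agree in the eyes of `M` -/
def Cmp (M : IntermediateField K (Om K)) (F F₀ : Type) [Field F] [NumberField F] [Algebra K F]
    [Field F₀] [NumberField F₀] [Algebra K F₀] (d : Fin r → 𝓞 F) (e : Fin r → 𝓞 F₀)
    (t : ℤ) : Prop :=
  ∀ (G : Type) [Field G] [NumberField G] [Algebra K G] (g : G →ₐ[K] Om K),
    g.fieldRange ≤ M → ∀ c : Fin r → 𝓞 G, (∀ i, c i ≠ 0) →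
    (∀ i, ∃ s ∈ M, s ^ 2 = g (c i : G)) → ∀ j ∈ pairs r,
      (inum K G F ((c j.1 * c j.2 : 𝓞 G) : G) ((d j.1 * d j.2 : 𝓞 F) : F) : ℤ) +
        t * inum K G F₀ ((c j.1 * c j.2 : 𝓞 G) : G) ((e j.1 * e j.2 : 𝓞 F₀) : F₀) = 0

theorem ip_two_eq_zero (M : IntermediateField K (Om K)) (A : VD f)
    (hA : InM M A) {τ : ℝ} (D D₀ : Dat f τ) (t : ℤ) (h : Cmp M D.F D₀.F D.d D₀.d t) :
    ip A (VD.two D D₀ t) = 0 := by
  classical
  unfold ip
  refine Finset.sum_eq_zero fun b _ => ?_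
  rw [Fintype.sum_bool, GG_eq, GG_eq]
  have h1 : ∀ j ∈ pairs r,
      (inum K (A.F b) D.F ((A.d b j.1 * A.d b j.2 : 𝓞 (A.F b)) : A.F b)
        ((D.d j.1 * D.d j.2 : 𝓞 D.F) : D.F) : ℝ) + t * inum K (A.F b) D₀.F
        ((A.d b j.1 * A.d b j.2 : 𝓞 (A.F b)) : A.F b)
          ((D₀.d j.1 * D₀.d j.2 : 𝓞 D₀.F) : D₀.F) = 0 := by
    intro j hj
    have := h (A.F b) (A.F b).val (by rw [IntermediateField.fieldRange_val]; exact (hA b).1)
      (A.d b) (A.hd b) (hA b).2 j hj
    exact_mod_cast this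
  by_cases hτ : A.τ = τ
  · have e1 : (VD.two D D₀ t).τ = τ := rfl
    simp only [e1, if_pos hτ]
    change (A.s b : ℝ) * (t : ℝ) * (∑ j ∈ pairs r, bb f j * (inum K (A.F b) D₀.F
        ((A.d b j.1 * A.d b j.2 : 𝓞 (A.F b)) : A.F b)
          ((D₀.d j.1 * D₀.d j.2 : 𝓞 D₀.F) : D₀.F) : ℝ)) +
      (A.s b : ℝ) * ((1 : ℤ) : ℝ) * (∑ j ∈ pairs r, bb f j * (inum K (A.F b) D.F
        ((A.d b j.1 * A.d b j.2 : 𝓞 (A.F b)) : A.F b)
          ((D.d j.1 * D.d j.2 : 𝓞 D.F) : D.F) : ℝ)) = 0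
    have e2 : (A.s b : ℝ) * ∑ j ∈ pairs r, bb f j * ((inum K (A.F b) D.F
        ((A.d b j.1 * A.d b j.2 : 𝓞 (A.F b)) : A.F b)
          ((D.d j.1 * D.d j.2 : 𝓞 D.F) : D.F) : ℝ) +
        t * inum K (A.F b) D₀.F ((A.d b j.1 * A.d b j.2 : 𝓞 (A.F b)) : A.F b)
          ((D₀.d j.1 * D₀.d j.2 : 𝓞 D₀.F) : D₀.F)) = 0 := by
      rw [Finset.sum_eq_zero, mul_zero]
      intro j hj
      rw [h1 j hj, mul_zero]
    rw [← e2]
    simp only [mul_add, Finset.sum_add_distrib, Finset.mul_sum]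
    rw [add_comm]
    congr 1
    · refine Finset.sum_congr rfl fun j _ => ?_
      push_cast
      ring
    · refine Finset.sum_congr rfl fun j _ => ?_
      ring
  · have e1 : ¬ A.τ = (VD.two D D₀ t).τ := hτ
    simp only [if_neg e1, mul_zero, Finset.sum_const_zero, add_zero]

theorem ip_tau (A B : VD f) (h : A.τ ≠ B.τ) : ip A B = 0 := by
  classical
  unfold ip
  refine Finset.sum_eq_zero fun b _ => Finset.sum_eq_zero fun c _ => ?_
  rw [GG_eq]
  simp only [if_neg h, mul_zero, Finset.sum_const_zero]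

/-- the field of definition of a finite family -/
theorem exists_field (T : Finset (VD f)) (n : ℕ) : ∃ M : IntermediateField K (Om K),
    FiniteDimensional K M ∧ Normal K M ∧ (∀ A ∈ T, InM M A) ∧
    ((∀ A ∈ T, A.F true ≤ A.F false ∧ Module.finrank K (A.F false) ≤ n) →
      Module.finrank K M ≤ (4 ^ r * n).factorial ^ T.card) := by
  classical
  have hsq : ∀ x : Om K, ∃ s : Om K, s ^ 2 = x := fun x => by
    obtain ⟨s, hs⟩ := IsAlgClosed.exists_pow_nat_eq x (by norm_num : 0 < 2)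
    exact ⟨s, hs⟩
  choose sq hsq using hsq
  let tt' : VD f → Bool × Fin r → Om K := fun A p => sq ((A.d p.1 p.2 : A.F p.1) : Om K)
  let W : VD f → IntermediateField K (Om K) := fun A => A.F false ⊔ A.F true ⊔
    IntermediateField.adjoin K (tt' A '' (Finset.univ : Finset (Bool × Fin r)))
  have hfin1 : ∀ A : VD f, FiniteDimensional K (IntermediateField.adjoin K
      (tt' A '' (Finset.univ : Finset (Bool × Fin r))) : IntermediateField K (Om K)) := by
    intro A
    have : Finite (tt' A '' (Finset.univ : Finset (Bool × Fin r)) : Set (Om K)) :=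
      Set.Finite.to_subtype (Set.Finite.image _ (Finset.finite_toSet _))
    refine IntermediateField.finiteDimensional_adjoin fun x _ => ?_
    exact Algebra.IsIntegral.isIntegral x
  have hfin2 : ∀ (A : VD f) b, FiniteDimensional K (A.F b) := fun A b => inferInstance
  have hfin : ∀ A, FiniteDimensional K (W A) := fun A =>
    have : FiniteDimensional K (A.F false ⊔ A.F true : IntermediateField K (Om K)) :=
      IntermediateField.finiteDimensional_sup _ _
    IntermediateField.finiteDimensional_sup _ _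
  obtain ⟨M, hM1, hM2, hM3, hM4⟩ := exists_normal W hfin T
  refine ⟨M, hM1, hM2, ?_, ?_⟩
  · intro A hA b
    have h1 : W A ≤ M := hM3 A hA
    have h2 : A.F false ⊔ A.F true ≤ M := le_sup_left.trans h1
    refine ⟨?_, fun i => ⟨sq ((A.d b i : A.F b) : Om K), ?_, hsq _⟩⟩
    · cases b
      · exact le_sup_left.trans h2
      · exact le_sup_right.trans h2
    · have h3 : IntermediateField.adjoin K
          (tt' A '' (Finset.univ : Finset (Bool × Fin r))) ≤ M := le_sup_right.trans h1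
      exact h3 (IntermediateField.subset_adjoin K _
        ⟨(b, i), Finset.mem_coe.2 (Finset.mem_univ _), rfl⟩)
  · intro hQ
    refine hM4 _ fun A hA => ?_
    obtain ⟨h1, h2⟩ := hQ A hA
    have h3 : W A = A.F false ⊔ IntermediateField.adjoin K
        (tt' A '' (Finset.univ : Finset (Bool × Fin r))) := by
      change A.F false ⊔ A.F true ⊔ _ = _
      rw [sup_eq_left.2 h1]
    rw [h3]
    refine (sqrt_adj (A.F false) (tt' A) ?_ Finset.univ).trans ?_
    · rintro ⟨b, i⟩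
      change sq _ ^ 2 ∈ A.F false
      rw [hsq]
      cases b
      · exact (A.d false i : A.F false).2
      · exact h1 (A.d true i : A.F true).2
    · rw [Finset.card_univ, Fintype.card_prod, Fintype.card_bool, Fintype.card_fin, pow_mul]
      exact Nat.mul_le_mul_left _ h2

/-- bounded intertwining number -/
def Bd (n : ℕ) (F : Type) [Field F] [NumberField F] [Algebra K F] (d : Fin r → 𝓞 F) : Prop :=
  ∀ j ∈ pairs r, inum K F F ((d j.1 * d j.2 : 𝓞 F) : F) ((d j.1 * d j.2 : 𝓞 F) : F) ≤ n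

theorem Bd_of_finrank {n : ℕ} {F : Type} [Field F] [NumberField F] [Algebra K F]
    (h : Module.finrank K F ≤ n) (d : Fin r → 𝓞 F) : Bd (K := K) n F d :=
  fun _ _ => (inum_le K F F _ _).trans h

theorem ip_two_self (h3 : ∀ i, 3 ≤ (f i).natDegree) (n N : ℕ)
    (hN : (N : ℝ) = ∑ j ∈ pairs r, bb f j) {τ : ℝ} (D D₀ : Dat f τ) (t : ℤ)
    (ht : t = 0 ∨ t = -1) (h1 : Bd (K := K) n D.F D.d) (h2 : Bd (K := K) n D₀.F D₀.d) :
    ip (VD.two D D₀ t) (VD.two D D₀ t) ≤ ((2 * n : ℕ) : ℝ) * N := by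
  classical
  set A := VD.two D D₀ t with hA
  have hnn : ∀ b c, 0 ≤ GG (A, b) (A, c) := by
    intro b c
    rw [GG_eq]
    refine Finset.sum_nonneg fun j _ => mul_nonneg (bb_pos h3 j).le ?_
    split_ifs
    · exact Nat.cast_nonneg _
    · exact le_rfl
  have g1 : GG (A, false) (A, false) ≤ n * N := by
    rw [GG_eq, hN, Finset.mul_sum]
    refine Finset.sum_le_sum fun j hj => ?_
    rw [if_pos rfl, mul_comm]
    refine mul_le_mul_of_nonneg_right ?_ (bb_pos h3 j).le
    exact_mod_cast h1 j hj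
  have g2 : GG (A, true) (A, true) ≤ n * N := by
    rw [GG_eq, hN, Finset.mul_sum]
    refine Finset.sum_le_sum fun j hj => ?_
    rw [if_pos rfl, mul_comm]
    refine mul_le_mul_of_nonneg_right ?_ (bb_pos h3 j).le
    exact_mod_cast h2 j hj
  have g3 := hnn true false
  have g4 := hnn false true
  have g5 := hnn true true
  have g6 : 0 ≤ (n : ℝ) * N := by positivity
  have e1 : A.s false = 1 := rfl
  have e2 : A.s true = t := rfl
  unfold ip
  rw [Fintype.sum_bool, Fintype.sum_bool, Fintype.sum_bool, e1, e2]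
  push_cast
  rcases ht with rfl | rfl
  · push_cast
    linarith
  · push_cast
    linarith

theorem val_range (F : IntermediateField K (Om K)) : F.val.fieldRange = F :=
  IntermediateField.fieldRange_val F

theorem int_ne {F : Type} [Field F] {a b : 𝓞 F} (ha : a ≠ 0) (hb : b ≠ 0) :
    ((a * b : 𝓞 F) : F) ≠ 0 := by
  rw [Ne, RingOfIntegers.coe_eq_zero_iff]
  exact mul_ne_zero ha hb

theorem sq_pair {G : Type} [Field G] [Algebra K G] {M : IntermediateField K (Om K)}
    (g : G →ₐ[K] Om K) (c : Fin r → 𝓞 G) (hs : ∀ i, ∃ s ∈ M, s ^ 2 = g (c i : G))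
    (j : Fin r × Fin r) : ∃ s ∈ M, s ^ 2 = g ((c j.1 * c j.2 : 𝓞 G) : G) := by
  obtain ⟨s, hs1, hs2⟩ := hs j.1
  obtain ⟨t, ht1, ht2⟩ := hs j.2
  refine ⟨s * t, mul_mem hs1 ht1, ?_⟩
  rw [mul_pow, hs2, ht2, ← map_mul]
  rfl

/-- new twists are orthogonal to `M` -/
theorem new_zero (M : IntermediateField K (Om K)) [Normal K M] (F : IntermediateField K (Om K))
    [NumberField F] {d : Fin r → 𝓞 F} (hd : ∀ i, d i ≠ 0) (j : Fin r × Fin r)
    (h : ∀ y ∈ F ⊔ M, y ^ 2 ≠ pr d j) (G : Type) [Field G] [NumberField G] [Algebra K G]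
    (g : G →ₐ[K] Om K) (hg : g.fieldRange ≤ M) (c : Fin r → 𝓞 G) (hc : ∀ i, c i ≠ 0)
    (hs : ∀ i, ∃ s ∈ M, s ^ 2 = g (c i : G)) :
    inum K G F ((c j.1 * c j.2 : 𝓞 G) : G) ((d j.1 * d j.2 : 𝓞 F) : F) = 0 := by
  rw [inum_symm hc hd j]
  obtain ⟨s, hs1, hs2⟩ := sq_pair g c hs j
  refine inum_eq_zero M F.val g hg (int_ne (hc j.1) (hc j.2)) hs1 hs2 ?_
  rw [val_range]
  exact h

/-- old twists only depend on `F ∩ M` -/
theorem old_eq (M : IntermediateField K (Om K)) [FiniteDimensional K M] [Normal K M]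
    (F F₀ : IntermediateField K (Om K)) [NumberField F] [NumberField F₀] (hF₀ : F₀ = F ⊓ M)
    {d : Fin r → 𝓞 F} {e : Fin r → 𝓞 F₀} (hd : ∀ i, d i ≠ 0) (he : ∀ i, e i ≠ 0)
    (j : Fin r × Fin r) (hu : ∃ u ∈ F, u ^ 2 = pr d j * pr e j) (ht : ∃ t ∈ M, t ^ 2 = pr e j)
    (G : Type) [Field G] [NumberField G] [Algebra K G]
    (g : G →ₐ[K] Om K) (hg : g.fieldRange ≤ M) (c : Fin r → 𝓞 G) (hc : ∀ i, c i ≠ 0)
    (hs : ∀ i, ∃ s ∈ M, s ^ 2 = g (c i : G)) :
    inum K G F ((c j.1 * c j.2 : 𝓞 G) : G) ((d j.1 * d j.2 : 𝓞 F) : F) =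
      inum K G F₀ ((c j.1 * c j.2 : 𝓞 G) : G) ((e j.1 * e j.2 : 𝓞 F₀) : F₀) := by
  rw [inum_symm hc hd j, inum_symm hc he j]
  obtain ⟨s, hs1, hs2⟩ := sq_pair g c hs j
  obtain ⟨t, ht1, ht2⟩ := ht
  obtain ⟨u, hu1, hu2⟩ := hu
  exact inum_inf M F.val F₀.val (by rw [val_range, val_range, hF₀]) g hg
    (int_ne (hd j.1) (hd j.2)) (int_ne (he j.1) (he j.2)) hs1 hs2 ht1 ht2
    (by rw [val_range]; exact hu1) hu2

/-- the relation between twists over `F` and twists over `F ∩ M` -/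
def Rel (M : IntermediateField K (Om K)) {F F₀ : IntermediateField K (Om K)} (d : Fin r → 𝓞 F)
    (e : Fin r → 𝓞 F₀) : Prop :=
  ∀ j ∈ pairs r, ((∃ u ∈ F, u ^ 2 = pr d j * pr e j) ∧ ∃ t ∈ M, t ^ 2 = pr e j) ∨
    ((∀ y ∈ F ⊔ M, y ^ 2 ≠ pr d j) ∧ ∀ y ∈ M, y ^ 2 ≠ pr e j)

/-- **Stabilisation.** -/
theorem stab (hodd : ∀ i, Odd (f i).natDegree)
    (h3 : ∀ i, 3 ≤ (f i).natDegree) (n k m N : ℕ) (hN : (N : ℝ) = ∑ j ∈ pairs r, bb f j)
    (U : Ultrafilter ℝ) (hU : (U : Filter ℝ) ≤ 𝓝[>] 0) (Q : VD f → Prop) :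
    ∃ (M : IntermediateField K (Om K)) (Θ : Finset ℝ), FiniteDimensional K M ∧ Normal K M ∧
      Θ.card ≤ 2 * n * (k * N) ^ 2 ∧
      ((∀ A, Q A → A.F true ≤ A.F false ∧ Module.finrank K (A.F false) ≤ m) →
        Module.finrank K M ≤ (4 ^ r * m).factorial ^ (2 * n * (k * N) ^ 2)) ∧
      (∀ (τ : ℝ) (D : Dat f τ), Bd (K := K) n D.F D.d → Q (VD.two D D 0) →
        (τ ∉ Θ ∨ ∀ j ∈ pairs r, ∀ y ∈ D.F ⊔ M, y ^ 2 ≠ pr D.d j) →
        k * |ul U D.X - ex r τ| < 1) ∧
      (∀ (τ : ℝ) (D D₀ : Dat f τ), D₀.F = D.F ⊓ M → Bd (K := K) n D.F D.d →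
        Bd (K := K) n D₀.F D₀.d → Q (VD.two D D₀ (-1)) → Rel M D.d D₀.d →
        k * |ul U D.X - ul U D₀.X| < 1) := by
  classical
  obtain ⟨T, hTc, hTQ, hT⟩ := exists_max hodd h3 U hU Q (2 * n) k N hN
  obtain ⟨M, hM1, hM2, hM, hM3⟩ := exists_field T m
  refine ⟨M, T.image fun A => A.τ, hM1, hM2, Finset.card_image_le.trans hTc, ?_, ?_, ?_⟩
  · intro hQ
    refine (hM3 fun A hA => hQ A (hTQ A hA)).trans ?_
    exact Nat.pow_le_pow_right (Nat.factorial_pos _) hTc
  · intro τ D hB hQ hcond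
    by_contra hne
    push Not at hne
    refine hT (VD.two D D 0) ⟨?_, ip_two_self h3 n N hN D D 0 (Or.inl rfl) hB hB, hQ⟩ ?_
    · have e1 : (VD.two D D 0).val U = ul U D.X - ex r τ := by
        unfold VD.val
        rw [Fintype.sum_bool]
        change ((0 : ℤ) : ℝ) * (ul U D.X - ex r τ) + ((1 : ℤ) : ℝ) * (ul U D.X - ex r τ) = _
        push_cast
        ring
      rw [e1]
      exact hne
    · intro A hA
      rw [ip_symm (VD.two D D 0) A, and_self]
      rcases hcond with hτ | hcond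
      · refine ip_tau A _ fun h => hτ ?_
        rw [Finset.mem_image]
        exact ⟨A, hA, h⟩
      · refine ip_two_eq_zero M A (hM A hA) D D 0 ?_
        intro G _ _ _ g hg c hc hs j hj
        rw [new_zero M D.F D.hd j (hcond j hj) G g hg c hc hs]
        simp
  · intro τ D D₀ hFF hB hB' hQ hcond
    by_contra hne
    push Not at hne
    refine hT (VD.two D D₀ (-1)) ⟨?_, ip_two_self h3 n N hN D D₀ (-1) (Or.inr rfl) hB hB', hQ⟩ ?_
    · have e1 : (VD.two D D₀ (-1)).val U = ul U D.X - ul U D₀.X := by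
        unfold VD.val
        rw [Fintype.sum_bool]
        change ((-1 : ℤ) : ℝ) * (ul U D₀.X - ex r τ) + ((1 : ℤ) : ℝ) * (ul U D.X - ex r τ) = _
        push_cast
        ring
      rw [e1]
      exact hne
    · intro A hA
      rw [ip_symm (VD.two D D₀ (-1)) A, and_self]
      refine ip_two_eq_zero M A (hM A hA) D D₀ (-1) ?_
      intro G _ _ _ g hg c hc hs j hj
      rcases hcond j hj with ⟨h1, h2⟩ | ⟨h1, h2⟩
      · rw [old_eq M D.F D₀.F hFF D.hd D₀.hd j h1 h2 G g hg c hc hs]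
        ring
      · have hFM : D₀.F ⊔ M = M := by
          rw [hFF]
          exact sup_eq_right.2 inf_le_right
        rw [new_zero M D.F D.hd j h1 G g hg c hc hs,
          new_zero M D₀.F D₀.hd j (by rw [hFM]; exact h2) G g hg c hc hs]
        simp

end

end Pool.Agent.W353.TP
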